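import Pool.Agent.R570.PlacOrd
set_option autoImplicit false

/-! # A recursive total order whose plactic monoid has undecidable Diophantine problem

For letters `a < b` of a total order, the five equations `abX = baX`, `Xab = Xba`, `aXa = Xaa`,
`XaX = XXa`, `bXb = bbX` have a common solution `X` in the plactic monoid iff some letter lies
strictly between `a` and `b`. There is a recursive total order on `ℕ`, of order type `ω`, in which
this cannot be decided. -/

namespace Pool.Agent.Results.MP_a663df_lc.RecursiveOrder

open Pool.Agent.R570.PlacOrd

/-- There is a total order `L` on the set `ℕ` of codes which is recursive (the relation `<` of `L` is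
decidable) and even of order type `ω`, such that no algorithm decides, for finite systems `S` of
equations with constants from `L`, whether `S` has a solution in the plactic monoid `P(L)`. -/
theorem result : ∃ L : LinearOrder ℕ,
    (ComputablePred fun p : ℕ × ℕ => @LT.lt ℕ L.toLT p.1 p.2) ∧
    (∃ f : ℕ ≃ ℕ, ∀ x y : ℕ, @LT.lt ℕ L.toLT x y ↔ f x < f y) ∧
    ¬ ComputablePred (Solvable L) :=
  ⟨ord, ord_computable, ord_omega, not_computable⟩

end Pool.Agent.Results.MP_a663df_lc.RecursiveOrder
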